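import Pool.Agent.helper54.V3.SpecE

set_option autoImplicit false

open Complex Metric Set Filter Topology MeasureTheory

namespace V3

theorem FPH_phase (u : ℂ) (hu : ‖u - 1‖ ≤ 1 / 2) :
    ‖((‖u‖ : ℝ) : ℂ) / u - 1‖ ≤ 4 * ‖u - 1‖ := by
  have h1 : (1 : ℝ) / 2 ≤ ‖u‖ := by
    have h2 : ‖(1 : ℂ)‖ ≤ ‖u‖ + ‖u - 1‖ := by
      have h3 : (1 : ℂ) = u - (u - 1) := by ring
      calc ‖(1 : ℂ)‖ = ‖u - (u - 1)‖ := by rw [← h3]
        _ ≤ ‖u‖ + ‖u - 1‖ := norm_sub_le _ _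
    rw [norm_one] at h2
    linarith
  have hu0 : u ≠ 0 := by
    intro h
    rw [h, norm_zero] at h1
    norm_num at h1
  have h4 : ((‖u‖ : ℝ) : ℂ) / u - 1 = (((‖u‖ : ℝ) : ℂ) - u) / u := by
    field_simp
  rw [h4, norm_div]
  have h5 : ‖((‖u‖ : ℝ) : ℂ) - u‖ ≤ 2 * ‖u - 1‖ := by
    have h6 : ((‖u‖ : ℝ) : ℂ) - u = (((‖u‖ - 1 : ℝ)) : ℂ) - (u - 1) := by
      push_cast
      ring
    rw [h6]
    have h7 : ‖(((‖u‖ - 1 : ℝ)) : ℂ)‖ ≤ ‖u - 1‖ := by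
      rw [Complex.norm_real, Real.norm_eq_abs]
      have := abs_norm_sub_norm_le u 1
      rwa [norm_one] at this
    calc ‖(((‖u‖ - 1 : ℝ)) : ℂ) - (u - 1)‖ ≤ ‖(((‖u‖ - 1 : ℝ)) : ℂ)‖ + ‖u - 1‖ := norm_sub_le _ _
      _ ≤ 2 * ‖u - 1‖ := by linarith
  rw [div_le_iff₀ (by linarith)]
  calc ‖((‖u‖ : ℝ) : ℂ) - u‖ ≤ 2 * ‖u - 1‖ := h5
    _ = 4 * ‖u - 1‖ * (1 / 2) := by ring
    _ ≤ 4 * ‖u - 1‖ * ‖u‖ := by
        apply mul_le_mul_of_nonneg_left h1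
        positivity

/-- the normalised function at infinity -/
noncomputable def FPH_U (Pf : Finset ℂ) (N : Polynomial ℂ) (w : ℂ) : ℂ :=
  N.reverse.eval w / (N.leadingCoeff * ∏ p ∈ Pf, (1 - p * w) ^ 2)

theorem FPH_U0 (Pf : Finset ℂ) (N : Polynomial ℂ) (hN : N ≠ 0) : FPH_U Pf N 0 = 1 := by
  have h1 : N.leadingCoeff ≠ 0 := Polynomial.leadingCoeff_ne_zero.2 hN
  unfold FPH_U
  rw [← Polynomial.coeff_zero_eq_eval_zero, Polynomial.coeff_zero_reverse]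
  simp [h1]

theorem FPH_Ud (Pf : Finset ℂ) (N : Polynomial ℂ) (hN : N ≠ 0) :
    DifferentiableAt ℂ (FPH_U Pf N) 0 := by
  have h1 : N.leadingCoeff ≠ 0 := Polynomial.leadingCoeff_ne_zero.2 hN
  unfold FPH_U
  apply DifferentiableAt.div
  · exact (Polynomial.differentiable _).differentiableAt
  · apply DifferentiableAt.const_mul
    apply DifferentiableAt.fun_finsetProd
    intro p _
    fun_prop
  · simp [h1]

theorem FPH_bd (Pf : Finset ℂ) (N : Polynomial ℂ) (hN : N ≠ 0) :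
    ∃ C δ : ℝ, 0 < C ∧ 0 < δ ∧ ∀ w : ℂ, ‖w‖ < δ → ‖FPH_U Pf N w - 1‖ ≤ C * ‖w‖ := by
  have h1 := (FPH_Ud Pf N hN).isBigO_sub
  obtain ⟨C, hC, hb⟩ := h1.exists_pos
  rw [Asymptotics.isBigOWith_iff] at hb
  obtain ⟨δ, hδ, hb'⟩ := Metric.eventually_nhds_iff.1 hb
  refine ⟨C, δ, hC, hδ, fun w hw => ?_⟩
  have h2 := hb' (y := w) (by rwa [dist_zero_right])
  rw [FPH_U0 Pf N hN, sub_zero] at h2
  exact h2

theorem FPH_eq (Pf : Finset ℂ) (N : Polynomial ℂ) (hN : N ≠ 0) (x : ℂ) (hx : x ≠ 0) (d : ℕ)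
    (hd : N.natDegree + d = 2 * Pf.card) :
    N.eval x / ∏ p ∈ Pf, (x - p) ^ 2 = N.leadingCoeff * (x ^ d)⁻¹ * FPH_U Pf N x⁻¹ := by
  have h1 : N.leadingCoeff ≠ 0 := Polynomial.leadingCoeff_ne_zero.2 hN
  have hinv : Invertible x := invertibleOfNonzero hx
  have h2 : N.reverse.eval x⁻¹ * x ^ N.natDegree = N.eval x := by
    have h3 := Polynomial.eval₂_reverse_mul_pow (RingHom.id ℂ) x N
    rw [invOf_eq_inv] at h3
    exact h3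
  have h4 : ∏ p ∈ Pf, (x - p) ^ 2 = x ^ (N.natDegree + d) * ∏ p ∈ Pf, (1 - p * x⁻¹) ^ 2 := by
    rw [hd, pow_mul, ← Finset.prod_const, ← Finset.prod_mul_distrib]
    apply Finset.prod_congr rfl
    intro p _
    rw [← mul_pow]
    congr 1
    field_simp
  unfold FPH_U
  rw [← h2, h4, pow_add]
  have h5 : x ^ N.natDegree ≠ 0 := pow_ne_zero _ hx
  have h6 : x ^ d ≠ 0 := pow_ne_zero _ hx
  by_cases h7 : ∏ p ∈ Pf, (1 - p * x⁻¹) ^ 2 = 0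
  · rw [h7]
    simp
  · field_simp

theorem FPH : FPH_stmt := by
  intro Pf N B hN hdeg hB
  obtain ⟨C, δ, hC, hδ, hU⟩ := FPH_bd Pf N hN
  have h1 : N.leadingCoeff ≠ 0 := Polynomial.leadingCoeff_ne_zero.2 hN
  obtain ⟨d, hd⟩ := Nat.exists_eq_add_of_lt hdeg
  refine ⟨d + 1, ((‖N.leadingCoeff‖ : ℝ) : ℂ) / N.leadingCoeff, 4 * C,
    1 + 2 / δ + 2 * C + ∑ p ∈ Pf, ‖p‖, by omega, ?_, ?_, ?_⟩
  · rw [norm_div, Complex.norm_real, norm_norm]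
    exact div_self (norm_ne_zero_iff.2 h1)
  · have := Finset.sum_nonneg (fun p (_ : p ∈ Pf) => norm_nonneg p)
    positivity
  · intro x hx
    have hS : ∀ p ∈ Pf, ‖p‖ ≤ ∑ p ∈ Pf, ‖p‖ :=
      fun p hp => Finset.single_le_sum (fun p (_ : p ∈ Pf) => norm_nonneg p) hp
    have hS0 : 0 ≤ ∑ p ∈ Pf, ‖p‖ := Finset.sum_nonneg (fun p (_ : p ∈ Pf) => norm_nonneg p)
    have hd2 : 0 < 2 / δ := by positivity
    have hx1 : 0 < ‖x‖ := by linarith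
    have hx0 : x ≠ 0 := norm_pos_iff.1 hx1
    have hxP : x ∉ Pf := by
      intro hxP
      have := hS x hxP
      linarith
    have hw : ‖x⁻¹‖ < δ := by
      rw [norm_inv]
      have h2 : 2 / δ < ‖x‖ := by linarith
      rw [inv_lt_comm₀ hx1 hδ]
      have h3 : δ⁻¹ ≤ 2 / δ := by
        rw [div_eq_mul_inv]
        have : 0 < δ⁻¹ := by positivity
        linarith
      linarith
    have hUx := hU x⁻¹ hw
    have hC2 : C * ‖x⁻¹‖ ≤ 1 / 2 := by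
      rw [norm_inv, ← div_eq_mul_inv, div_le_iff₀ hx1]
      linarith
    set u : ℂ := FPH_U Pf N x⁻¹ with hu
    have hph := FPH_phase u (hUx.trans hC2)
    have hBx : B x = N.leadingCoeff * (x ^ (d + 1))⁻¹ * u := by
      rw [hB x hxP, hu]
      exact FPH_eq Pf N hN x hx0 (d + 1) (by omega)
    have hu0 : u ≠ 0 := by
      intro h
      have h2 := hUx.trans hC2
      rw [h, zero_sub, norm_neg, norm_one] at h2
      norm_num at h2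
    have hnx : ((‖x‖ : ℝ) : ℂ) ≠ 0 := by exact_mod_cast hx1.ne'
    have hnl : ((‖N.leadingCoeff‖ : ℝ) : ℂ) ≠ 0 := by
      exact_mod_cast (norm_ne_zero_iff.2 h1)
    have h3 : ((‖B x‖ : ℝ) : ℂ) / B x = ((‖N.leadingCoeff‖ : ℝ) : ℂ) / N.leadingCoeff *
        (x / (‖x‖ : ℝ)) ^ (d + 1) * (((‖u‖ : ℝ) : ℂ) / u) := by
      rw [hBx, norm_mul, norm_mul, norm_inv, norm_pow]
      push_cast
      have h6 : x ^ (d + 1) ≠ 0 := pow_ne_zero _ hx0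
      have h7 : ((‖x‖ : ℝ) : ℂ) ^ (d + 1) ≠ 0 := pow_ne_zero _ hnx
      rw [div_pow]
      field_simp
    rw [h3]
    have h4 : ((‖N.leadingCoeff‖ : ℝ) : ℂ) / N.leadingCoeff *
        (x / (‖x‖ : ℝ)) ^ (d + 1) * (((‖u‖ : ℝ) : ℂ) / u) -
        ((‖N.leadingCoeff‖ : ℝ) : ℂ) / N.leadingCoeff * (x / (‖x‖ : ℝ)) ^ (d + 1) =
        ((‖N.leadingCoeff‖ : ℝ) : ℂ) / N.leadingCoeff *
        (x / (‖x‖ : ℝ)) ^ (d + 1) * (((‖u‖ : ℝ) : ℂ) / u - 1) := by ring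
    rw [h4, norm_mul, norm_mul, norm_pow, norm_div, norm_div, Complex.norm_real, norm_norm,
      Complex.norm_real, norm_norm, div_self (norm_ne_zero_iff.2 h1), div_self hx1.ne', one_pow,
      one_mul, one_mul]
    calc ‖((‖u‖ : ℝ) : ℂ) / u - 1‖ ≤ 4 * ‖u - 1‖ := hph
      _ ≤ 4 * (C * ‖x⁻¹‖) := by linarith
      _ = 4 * C / ‖x‖ := by rw [norm_inv]; ring

end V3
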